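import Pool.Agent.H36.Seq3

open Pool.Agent.H38.NP Pool.Agent.H36.PSpace Pool.Agent.H36.Seq

theorem Pool.Agent.Results.MP_ce3b04_lc.Hard.result :
    PSPACEHardOn Orthogonal StronglySequential ∧
      (InNPOn Orthogonal StronglySequential → ∀ A, InPSPACE A → InNP A) :=
  ⟨hard.hardOn, PSH_inNP hard⟩
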